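import Mathlib

/-!
A lower bound for the size of a union of almost independent sets.
-/

set_option autoImplicit false

open Finset

namespace Pool.MP43e44c

private theorem bonf_ind {ι Ω : Type*} [DecidableEq Ω] (E : ι → Finset Ω) {N α κ : ℝ}
    (T : Finset ι) (h1 : ∀ i ∈ T, α * N ≤ ((E i).card : ℝ))
    (h2 : ∀ i ∈ T, ∀ j ∈ T, i ≠ j → ((E i ∩ E j).card : ℝ) ≤ κ * α ^ 2 * N) :
    (T.card : ℝ) * (α * N) - (T.card : ℝ) * ((T.card : ℝ) - 1) / 2 * (κ * α ^ 2 * N) ≤
      ((T.biUnion E).card : ℝ) := by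
  classical
  induction T using Finset.induction_on with
  | empty => simp
  | insert a T ha ih =>
    have ih' := ih (fun i hi => h1 i (mem_insert_of_mem hi))
      (fun i hi j hj hij => h2 i (mem_insert_of_mem hi) j (mem_insert_of_mem hj) hij)
    have e1 : ((E a ∪ T.biUnion E).card : ℝ) + ((E a ∩ T.biUnion E).card : ℝ) =
        ((E a).card : ℝ) + ((T.biUnion E).card : ℝ) := by
      exact_mod_cast card_union_add_card_inter (E a) (T.biUnion E)
    have e2 : ((E a ∩ T.biUnion E).card : ℝ) ≤ (T.card : ℝ) * (κ * α ^ 2 * N) := by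
      have h3 : E a ∩ T.biUnion E ⊆ T.biUnion fun j => E a ∩ E j := by
        intro x hx
        rw [mem_inter, mem_biUnion] at hx
        obtain ⟨hx1, j, hj, hx2⟩ := hx
        exact mem_biUnion.2 ⟨j, hj, mem_inter.2 ⟨hx1, hx2⟩⟩
      calc ((E a ∩ T.biUnion E).card : ℝ) ≤ ((T.biUnion fun j => E a ∩ E j).card : ℝ) := by
            exact_mod_cast card_le_card h3
        _ ≤ ∑ j ∈ T, ((E a ∩ E j).card : ℝ) := by exact_mod_cast card_biUnion_le
        _ ≤ ∑ _j ∈ T, κ * α ^ 2 * N := by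
            refine sum_le_sum fun j hj => ?_
            refine h2 a (mem_insert_self _ _) j (mem_insert_of_mem hj) ?_
            rintro rfl
            exact ha hj
        _ = (T.card : ℝ) * (κ * α ^ 2 * N) := by rw [sum_const, nsmul_eq_mul]
    have e3 := h1 a (mem_insert_self _ _)
    rw [biUnion_insert, card_insert_of_notMem ha]
    push_cast
    nlinarith [ih', e1, e2, e3]

/-- Bonferroni: take `S' ⊆ S` with `s' = min S.card ⌊1 / (κ α)⌋` elements, then
`|⋃| ≥ ∑_{i ∈ S'} |E i| - ∑_{i < j} |E i ∩ E j| ≥ s' α N - (s' ^ 2 / 2) κ α ^ 2 N ≥ s' α N / 2`, and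
`s' α ≥ min (S.card α) (1 / (2 κ))`. -/
theorem union_lower {ι Ω : Type*} [DecidableEq Ω] (S : Finset ι) (E : ι → Finset Ω) {N α κ : ℝ}
    (hN : 0 ≤ N) (hα : 0 < α) (hκ : 1 ≤ κ) (hκα : κ * α ≤ 1)
    (h1 : ∀ i ∈ S, α * N ≤ ((E i).card : ℝ))
    (h2 : ∀ i ∈ S, ∀ j ∈ S, i ≠ j → ((E i ∩ E j).card : ℝ) ≤ κ * α ^ 2 * N) :
    1 / (4 * κ) * min 1 (S.card * α) * N ≤ ((S.biUnion E).card : ℝ) := by
  have hκ0 : 0 < κ := by linarith
  have hκα0 : 0 < κ * α := by positivity
  have hy : 1 ≤ 1 / (κ * α) := by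
    rw [le_div_iff₀ hκα0]
    linarith
  obtain ⟨m, hm⟩ : ∃ m : ℕ, m = ⌊1 / (κ * α)⌋₊ := ⟨_, rfl⟩
  have hm1 : (m : ℝ) ≤ 1 / (κ * α) := by
    rw [hm]
    exact Nat.floor_le (by positivity)
  have hm2 : 1 / (κ * α) < m + 1 := by
    rw [hm]
    exact Nat.lt_floor_add_one _
  have hm3 : 1 ≤ m := by
    rw [hm]
    exact Nat.le_floor (by exact_mod_cast hy)
  have hm3' : (1 : ℝ) ≤ m := by exact_mod_cast hm3
  obtain ⟨T, hTS, hT⟩ := exists_subset_card_eq (min_le_left S.card m)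
  have hb := bonf_ind E (N := N) (α := α) (κ := κ) T (fun i hi => h1 i (hTS hi))
    (fun i hi j hj hij => h2 i (hTS hi) j (hTS hj) hij)
  have hsub : ((T.biUnion E).card : ℝ) ≤ ((S.biUnion E).card : ℝ) := by
    exact_mod_cast card_le_card (biUnion_subset_biUnion_of_subset_left E hTS)
  refine le_trans ?_ (hb.trans hsub)
  rw [hT]
  obtain ⟨s, hs⟩ : ∃ s : ℝ, s = ((min S.card m : ℕ) : ℝ) := ⟨_, rfl⟩
  rw [← hs]
  have hs0 : 0 ≤ s := by rw [hs]; positivity
  have hsm : s ≤ m := by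
    rw [hs]
    exact_mod_cast min_le_right _ _
  have hsκ : s * (κ * α) ≤ 1 := by
    have := hsm.trans hm1
    rwa [le_div_iff₀ hκα0] at this
  -- the bound from below
  have hs2 : 1 / (2 * κ) * min 1 (S.card * α) ≤ s * α := by
    have hmin1 : min 1 ((S.card : ℝ) * α) ≤ 1 := min_le_left _ _
    have hmin2 : min 1 ((S.card : ℝ) * α) ≤ S.card * α := min_le_right _ _
    have hmin0 : 0 ≤ min 1 ((S.card : ℝ) * α) := le_min zero_le_one (by positivity)
    have hk : 0 < 1 / (2 * κ) := by positivity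
    rcases min_choice S.card m with h | h
    · rw [h] at hs
      rw [hs]
      have h3 : 1 / (2 * κ) ≤ 1 := by
        rw [div_le_iff₀ (by positivity)]
        linarith
      calc 1 / (2 * κ) * min 1 (S.card * α) ≤ 1 * min 1 (S.card * α) :=
            mul_le_mul_of_nonneg_right h3 hmin0
        _ ≤ S.card * α := by rw [one_mul]; exact hmin2
    · rw [h] at hs
      rw [hs]
      have h3 : 1 / (2 * κ) ≤ m * α := by
        rw [div_lt_iff₀ hκα0] at hm2
        rw [div_le_iff₀ (by positivity)]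
        nlinarith
      calc 1 / (2 * κ) * min 1 (S.card * α) ≤ 1 / (2 * κ) * 1 :=
            mul_le_mul_of_nonneg_left hmin1 hk.le
        _ ≤ m * α := by rw [mul_one]; exact h3
  have h4 : s * α * N / 2 ≤ s * (α * N) - s * (s - 1) / 2 * (κ * α ^ 2 * N) := by
    have h5 : 0 ≤ s * (α * N) := by positivity
    have h6 : s * (s - 1) * (κ * α ^ 2 * N) ≤ s * (α * N) := by
      have h7 : s * (s - 1) * (κ * α ^ 2 * N) = (s * (κ * α)) * (s * (α * N)) -
          κ * α * (s * (α * N)) := by ring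
      rw [h7]
      have h8 : (s * (κ * α)) * (s * (α * N)) ≤ 1 * (s * (α * N)) :=
        mul_le_mul_of_nonneg_right hsκ h5
      have h9 : 0 ≤ κ * α * (s * (α * N)) := by positivity
      linarith
    nlinarith [h6]
  refine le_trans ?_ h4
  have h10 : 1 / (4 * κ) * min 1 (S.card * α) * N = (1 / (2 * κ) * min 1 (S.card * α)) * (N / 2) := by
    field_simp
    ring
  rw [h10]
  have h11 : s * α * N / 2 = (s * α) * (N / 2) := by ring
  rw [h11]
  exact mul_le_mul_of_nonneg_right hs2 (by positivity)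

end Pool.MP43e44c
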