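import Pool.Agent.H.MP_43e44c_ag.Char

/-!
The number of half systems with a symmetry.
-/

set_option autoImplicit false

open Finset

namespace Pool.MP43e44c

/-- The half systems with a given symmetry `h`. -/
private theorem card_symm_aux {G : Type*} [CommGroup G] [Fintype G] {c : G} (hc2 : c * c = 1)
    (hc1 : c ≠ 1) {n : ℕ} (hn : Fintype.card G = 2 * n) (h : G) (F : Finset (Finset G))
    (hF : ∀ A ∈ F, IsHalf c A ∧ h ≠ c ∧ ∀ x, x ∈ A ↔ x * h ∉ A) : F.card ≤ 2 ^ (n / 2) := by
  classical
  rcases F.eq_empty_or_nonempty with hE | ⟨A₀, hA₀⟩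
  · rw [hE, Finset.card_empty]; exact Nat.zero_le _
  obtain ⟨-, hhc, hx₀⟩ := hF A₀ hA₀
  have hh1 : h ≠ 1 := by
    rintro rfl
    have := hx₀ 1
    rw [mul_one] at this
    tauto
  set y : G := h * c with hy
  have hyc : y * c = h := by rw [hy, mul_assoc, hc2, mul_one]
  have hy1 : y ≠ 1 := by
    intro h1
    rw [h1, one_mul] at hyc
    exact hhc hyc.symm
  have hyc1 : y ≠ c := by
    intro h1
    rw [h1, hc2] at hyc
    exact hh1 hyc.symm
  have hAy : ∀ A ∈ F, ∀ x, x ∈ A ↔ x * y ∈ A := by
    intro A hA x
    obtain ⟨h1, -, h3⟩ := hF A hA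
    have e1 := h3 x
    have e2 := h1 (x * h)
    rw [hy, ← mul_assoc]
    tauto
  set K : Subgroup G := Subgroup.closure {c, y} with hK
  have hcK : c ∈ K := Subgroup.subset_closure (by simp)
  have hyK : y ∈ K := Subgroup.subset_closure (by simp)
  -- the size of the subgroup
  have h4 : 4 ≤ Nat.card K := by
    have hsub : ((({1, c, y, y * c} : Finset G)) : Set G) ⊆ (K : Set G) := by
      intro z hz
      simp only [Finset.coe_insert, Finset.coe_singleton, Set.mem_insert_iff,
        Set.mem_singleton_iff] at hz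
      rcases hz with rfl | rfl | rfl | rfl
      · exact K.one_mem
      · exact hcK
      · exact hyK
      · exact K.mul_mem hyK hcK
    have hcard : ({1, c, y, y * c} : Finset G).card = 4 := by
      rw [Finset.card_insert_of_notMem, Finset.card_insert_of_notMem,
        Finset.card_insert_of_notMem, Finset.card_singleton]
      · rw [Finset.mem_singleton]
        intro h1
        exact hc1 (mul_left_cancel (a := y) (by rw [mul_one]; exact h1.symm))
      · rw [Finset.mem_insert, Finset.mem_singleton, not_or, hyc]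
        exact ⟨fun h1 => hyc1 h1.symm, fun h1 => hhc h1.symm⟩
      · rw [Finset.mem_insert, Finset.mem_insert, Finset.mem_singleton, not_or, not_or, hyc]
        exact ⟨fun h1 => hc1 h1.symm, fun h1 => hy1 h1.symm, fun h1 => hh1 h1.symm⟩
    have h5 := Set.ncard_le_ncard hsub (Set.toFinite _)
    rw [Set.ncard_coe_finset, hcard] at h5
    exact h5
  have hidx : Fintype.card (G ⧸ K) ≤ n / 2 := by
    have h5 := Subgroup.card_eq_card_quotient_mul_card_subgroup K
    rw [Nat.card_eq_fintype_card, hn, Nat.card_eq_fintype_card] at h5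
    have h6 : Fintype.card (G ⧸ K) * 4 ≤ 2 * n := by
      rw [h5]
      exact Nat.mul_le_mul_left _ h4
    omega
  -- the values at the representatives determine the set
  have hdet : ∀ A ∈ F, ∀ B ∈ F, ∀ z ∈ K, ∀ x,
      ((x ∈ A ↔ x ∈ B) ↔ (x * z ∈ A ↔ x * z ∈ B)) := by
    intro A hA B hB z hz
    rw [hK] at hz
    induction hz using Subgroup.closure_induction with
    | mem z hz =>
      intro x
      rcases hz with rfl | hz
      · have e1 := (hF A hA).1 x
        have e2 := (hF B hB).1 x
        tauto
      · rw [Set.mem_singleton_iff] at hz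
        rw [hz]
        have e1 := hAy A hA x
        have e2 := hAy B hB x
        tauto
    | one => intro x; rw [mul_one]
    | mul a b _ _ ha hb =>
      intro x
      rw [ha x, hb (x * a), mul_assoc]
    | inv a _ ha =>
      intro x
      have e := ha (x * a⁻¹)
      rw [inv_mul_cancel_right] at e
      exact e.symm
  let φ : Finset G → Finset (G ⧸ K) := fun A => univ.filter fun q => q.out ∈ A
  have hinj : Set.InjOn φ (F : Set (Finset G)) := by
    intro A hA B hB hAB
    ext g
    obtain ⟨z, hz⟩ := QuotientGroup.mk_out_eq_mul K g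
    have e1 := hdet A hA B hB (z : G) z.2 g
    rw [e1, ← hz]
    have e2 : ((g : G ⧸ K) ∈ φ A ↔ (g : G ⧸ K) ∈ φ B) := by rw [hAB]
    simpa [φ] using e2
  calc F.card = (F.image φ).card := (Finset.card_image_of_injOn hinj).symm
    _ ≤ (univ : Finset (Finset (G ⧸ K))).card := Finset.card_le_card (Finset.subset_univ _)
    _ = 2 ^ Fintype.card (G ⧸ K) := by rw [Finset.card_univ, Fintype.card_finset]
    _ ≤ 2 ^ (n / 2) := Nat.pow_le_pow_right (by norm_num) hidx

open Classical in
/-- If `x ∈ A ↔ x * h ∉ A` for all `x`, then `h ≠ 1` and with `y = h * c ≠ 1, c` we have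
`x ∈ A ↔ x * y ∈ A`.  The subgroup `H` generated by `c` and `y` has at least `4` elements (it contains
`{1, c}` properly and has even order; or simply contains `1, c, y, y * c`), and `A` is determined by
its values at representatives of the cosets of `H` (the set of `z` such that membership of `x * z` and of
`x` in `A` and `B` are related in the same way for all `x` is a subgroup containing `c, y`).  So for a
given `h` there are at most `2 ^ (2 n / 4)` such `A`, and there are at most `2 n` elements `h`. -/
theorem card_symm_le {G : Type*} [CommGroup G] [Fintype G] {c : G} (hc2 : c * c = 1) (hc1 : c ≠ 1)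
    {n : ℕ} (hn : Fintype.card G = 2 * n) :
    (univ.filter fun A : Finset G => IsHalf c A ∧
      ∃ h : G, h ≠ c ∧ ∀ x, x ∈ A ↔ x * h ∉ A).card ≤ 2 * n * 2 ^ (n / 2) := by
  have hsub : (univ.filter fun A : Finset G => IsHalf c A ∧
      ∃ h : G, h ≠ c ∧ ∀ x, x ∈ A ↔ x * h ∉ A) ⊆ univ.biUnion fun h : G =>
      univ.filter fun A : Finset G => IsHalf c A ∧ h ≠ c ∧ ∀ x, x ∈ A ↔ x * h ∉ A := by
    intro A hA
    rw [Finset.mem_filter] at hA
    obtain ⟨-, h1, h, h2, h3⟩ := hA
    rw [Finset.mem_biUnion]
    exact ⟨h, Finset.mem_univ _, Finset.mem_filter.mpr ⟨Finset.mem_univ _, h1, h2, h3⟩⟩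
  refine (Finset.card_le_card hsub).trans (Finset.card_biUnion_le.trans ?_)
  calc ∑ h : G, (univ.filter fun A : Finset G => IsHalf c A ∧ h ≠ c ∧
        ∀ x, x ∈ A ↔ x * h ∉ A).card
      ≤ ∑ _h : G, 2 ^ (n / 2) := Finset.sum_le_sum fun h _ =>
        card_symm_aux hc2 hc1 hn h _ fun A hA => (Finset.mem_filter.mp hA).2
    _ = 2 * n * 2 ^ (n / 2) := by
        rw [Finset.sum_const, Finset.card_univ, hn, smul_eq_mul]

end Pool.MP43e44c
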