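import Pool.Agent.H.MP_43e44c_ag.Count

/-!
Counting families of subsets whose size vector is determined by the coordinates outside a set.
-/

set_option autoImplicit false

open Finset

namespace Pool.MP43e44c

open Classical in
/-- Version of `card_sizes_le` (`Count.lean`) for an arbitrary set `D` of pivot coordinates.
Transport along an equivalence `H ≃ Fin h` which maps `D` onto the first `D.card` elements
(`Finset.equivFin`, `Fintype.equivFinOfCardEq`, e.g. `Equiv.sumCompl`/`finSumFinEquiv`), or repeat the
proof of `card_sizes_le` with `i ∈ D` instead of `i < d`: the family `a` is determined by the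
subsets `a i`, `i ∉ D` (at most `(2 ^ k) ^ (h - d)` choices) and, these being fixed, the sizes of the
`a i`, `i ∈ D` are determined, so there are at most `(k.choose (k / 2)) ^ d` choices. -/
theorem card_sizes_piv {N H : Type*} [Fintype N] [Fintype H] (D : Finset H)
    (P : (H → ℕ) → Prop)
    (hP : ∀ x y, P x → P y → (∀ i, i ∉ D → x i = y i) → x = y) :
    (univ.filter fun a : H → Finset N => P fun i => (a i).card).card
      ≤ ((Fintype.card N).choose (Fintype.card N / 2)) ^ D.card *
        (2 ^ Fintype.card N) ^ (Fintype.card H - D.card) := by
  set k := Fintype.card N with hk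
  have hcard : (univ.filter fun i : H => i ∈ D).card = D.card := by
    rw [Finset.filter_mem_eq_inter, Finset.univ_inter]
  have hcard' : (univ.filter fun i : H => ¬ i ∈ D).card = Fintype.card H - D.card := by
    have := Finset.card_filter_add_card_filter_not (s := (univ : Finset H))
      (fun i : H => i ∈ D)
    rw [hcard, Finset.card_univ] at this
    omega
  have hprod : ∀ α β : ℕ, (∏ i : H, if i ∈ D then α else β) =
      α ^ D.card * β ^ (Fintype.card H - D.card) := by
    intro α β
    rw [Finset.prod_ite, Finset.prod_const, Finset.prod_const, hcard, hcard']
  set t : Finset (H → Finset N) :=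
    Fintype.piFinset fun i : H => if i ∈ D then {∅} else univ with ht
  have htcard : t.card = (2 ^ k) ^ (Fintype.card H - D.card) := by
    rw [ht, Fintype.card_piFinset]
    have : ∀ i : H, ((if i ∈ D then {∅} else univ : Finset (Finset N))).card
        = if i ∈ D then 1 else 2 ^ k := by
      intro i
      split_ifs
      · simp
      · rw [Finset.card_univ, Fintype.card_finset]
    rw [Finset.prod_congr rfl fun i _ => this i, hprod, one_pow, one_mul]
  rw [← htcard]
  refine Finset.card_le_mul_card_image_of_maps_to
    (f := fun (a : H → Finset N) (i : H) => if i ∈ D then ∅ else a i) ?_ _ ?_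
  · intro a _
    rw [ht, Fintype.mem_piFinset]
    intro i
    split_ifs <;> simp
  · intro b _
    by_cases hne : ((univ.filter fun a : H → Finset N => P fun i => (a i).card).filter
        fun a => (fun i : H => if i ∈ D then ∅ else a i) = b).Nonempty
    · obtain ⟨a₀, ha₀⟩ := hne
      rw [mem_filter, mem_filter] at ha₀
      obtain ⟨⟨-, hPa₀⟩, hb₀⟩ := ha₀
      have hsub : ((univ.filter fun a : H → Finset N => P fun i => (a i).card).filter
          fun a => (fun i : H => if i ∈ D then ∅ else a i) = b) ⊆
          Fintype.piFinset fun i : H =>
            if i ∈ D then Finset.powersetCard (a₀ i).card univ else {b i} := by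
        intro a ha
        rw [mem_filter, mem_filter] at ha
        obtain ⟨⟨-, hPa⟩, hb⟩ := ha
        have htail : ∀ i : H, i ∉ D → a i = a₀ i := by
          intro i hi
          have h1 := congrFun hb i
          have h2 := congrFun hb₀ i
          simp only [hi, if_false] at h1 h2
          rw [h1, h2]
        have hsz := hP _ _ hPa hPa₀ fun i hi => by rw [htail i hi]
        rw [Fintype.mem_piFinset]
        intro i
        split_ifs with hi
        · rw [Finset.mem_powersetCard]
          exact ⟨Finset.subset_univ _, congrFun hsz i⟩
        · have h1 := congrFun hb i
          simp only [hi, if_false] at h1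
          rw [h1]; simp
      refine (Finset.card_le_card hsub).trans ?_
      rw [Fintype.card_piFinset]
      calc ∏ i : H, ((if i ∈ D then Finset.powersetCard (a₀ i).card univ else {b i} :
              Finset (Finset N))).card
          ≤ ∏ i : H, (if i ∈ D then k.choose (k / 2) else 1) := by
            refine Finset.prod_le_prod' fun i _ => ?_
            split_ifs
            · rw [Finset.card_powersetCard, Finset.card_univ, ← hk]
              exact Nat.choose_le_middle _ _
            · simp
        _ = (k.choose (k / 2)) ^ D.card := by rw [hprod, one_pow, mul_one]
    · rw [Finset.not_nonempty_iff_eq_empty] at hne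
      rw [hne]; simp

end Pool.MP43e44c
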